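import Mathlib

/-!
# Divisibility of lowest forms bounds a dimension (helper96, project ALL, end of section 3)

`finrank_le_of_forms`: if `f` divides the `ρ`-th power of the lowest form of every nonzero element
of a space `V` of polynomials of degree `< s`, then
`dim V ≤ #{monomials of degree < s - ⌈deg f / ρ⌉}`.
-/

set_option autoImplicit false

namespace Pool.Agent.ALLForms

open MvPolynomial Module

section ufd

variable {R : Type*} [CommRing R] [IsDomain R] [UniqueFactorizationMonoid R]

/-- the `ρ`-th root of the divisor of `f`, rounded up -/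
theorem exists_root (f : R) {ρ : ℕ} (hρ : 0 < ρ) :
    ∃ q : R, q ∣ f ∧ f ∣ q ^ ρ ∧ ∀ h, f ∣ h ^ ρ → q ∣ h := by
  refine UniqueFactorizationMonoid.induction_on_coprime f ?_ ?_ ?_ ?_
  · refine ⟨0, dvd_refl _, by rw [zero_pow hρ.ne'], fun h hh => ?_⟩
    rw [zero_dvd_iff] at hh ⊢
    exact pow_eq_zero_iff hρ.ne' |>.1 hh
  · intro x hx
    exact ⟨1, one_dvd _, by rw [one_pow]; exact isUnit_iff_dvd_one.1 hx, fun h _ => one_dvd _⟩
  · intro p i hp
    refine ⟨p ^ ((i + ρ - 1) / ρ), pow_dvd_pow p ?_, ?_, fun h hh => ?_⟩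
    · rcases Nat.eq_zero_or_pos i with rfl | hi
      · rw [Nat.div_eq_of_lt (by omega)]
      · refine Nat.div_le_of_le_mul ?_
        obtain ⟨a, rfl⟩ : ∃ a, i = a + 1 := ⟨i - 1, by omega⟩
        obtain ⟨b, rfl⟩ : ∃ b, ρ = b + 1 := ⟨ρ - 1, by omega⟩
        have : (b + 1) * (a + 1) = a * b + (a + b + 1) := by ring
        omega
    · rw [← pow_mul]
      refine pow_dvd_pow p ?_
      have := Nat.lt_div_mul_add (a := i + ρ - 1) hρ
      omega
    · by_cases h0 : h = 0
      · rw [h0]; exact dvd_zero _
      have hfin : FiniteMultiplicity p h := FiniteMultiplicity.of_prime_left hp h0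
      obtain ⟨e, c, hc, hpc⟩ : ∃ e c, h = p ^ e * c ∧ ¬ p ∣ c := by
        obtain ⟨c, hc⟩ := pow_multiplicity_dvd p h
        refine ⟨_, c, hc, fun hpc => ?_⟩
        have h5 : p ^ (multiplicity p h + 1) ∣ p ^ multiplicity p h * c := by
          rw [pow_succ]
          exact mul_dvd_mul_left _ hpc
        rw [← hc] at h5
        exact hfin.not_pow_dvd_of_multiplicity_lt (Nat.lt_succ_self _) h5
      have h1 : i ≤ e * ρ := by
        by_contra hlt
        push Not at hlt
        have h2 : p ^ (e * ρ + 1) ∣ h ^ ρ := (pow_dvd_pow p hlt).trans hh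
        rw [hc, mul_pow, ← pow_mul, pow_succ] at h2
        have h3 : p ∣ c ^ ρ := by
          have hne : p ^ (e * ρ) ≠ 0 := pow_ne_zero _ hp.ne_zero
          exact (mul_dvd_mul_iff_left hne).1 h2
        exact hpc (hp.dvd_of_dvd_pow h3)
      rw [hc]
      refine dvd_trans (pow_dvd_pow p ?_) (dvd_mul_right _ _)
      refine Nat.lt_succ_iff.1 (Nat.div_lt_of_lt_mul ?_)
      have : ρ * (e + 1) = e * ρ + ρ := by ring
      simp only [Nat.succ_eq_add_one]
      omega
  · rintro x y hxy ⟨q, hq1, hq2, hq3⟩ ⟨r, hr1, hr2, hr3⟩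
    refine ⟨q * r, mul_dvd_mul hq1 hr1, by rw [mul_pow]; exact mul_dvd_mul hq2 hr2,
      fun h hh => ?_⟩
    have h1 := hq3 h ((dvd_mul_right x y).trans hh)
    have h2 := hr3 h ((dvd_mul_left y x).trans hh)
    have h3 : IsRelPrime q r := fun d hd1 hd2 => hxy (hd1.trans hq1) (hd2.trans hr1)
    exact h3.mul_dvd h1 h2

end ufd

section filtration

variable {k E E' : Type*} [Field k] [AddCommGroup E] [Module k E] [AddCommGroup E'] [Module k E']

/-- the `j`-th step of the filtration of `V` by the vanishing of the first components -/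
def stepV (φ : ℕ → E →ₗ[k] E') (V : Submodule k E) (j : ℕ) : Submodule k E :=
  V ⊓ ⨅ m : Fin j, LinearMap.ker (φ m)

theorem mem_stepV {φ : ℕ → E →ₗ[k] E'} {V : Submodule k E} {j : ℕ} {g : E} :
    g ∈ stepV φ V j ↔ g ∈ V ∧ ∀ m < j, φ m g = 0 := by
  unfold stepV
  rw [Submodule.mem_inf, Submodule.mem_iInf]
  refine and_congr_right fun _ => ⟨fun h m hm => h ⟨m, hm⟩, fun h m => h m m.2⟩

theorem stepV_succ (φ : ℕ → E →ₗ[k] E') (V : Submodule k E) (j : ℕ) :
    stepV φ V (j + 1) = stepV φ V j ⊓ LinearMap.ker (φ j) := by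
  ext g
  rw [mem_stepV, Submodule.mem_inf, mem_stepV, LinearMap.mem_ker, and_assoc]
  refine and_congr_right fun _ => ⟨fun h => ⟨fun m hm => h m (by omega), h j (by omega)⟩,
    fun h m hm => ?_⟩
  rcases Nat.lt_succ_iff_lt_or_eq.1 hm with hm | rfl
  · exact h.1 m hm
  · exact h.2

theorem finrank_stepV (φ : ℕ → E →ₗ[k] E') (V : Submodule k E) [FiniteDimensional k V] (j : ℕ) :
    finrank k (stepV φ V j) =
      finrank k ((stepV φ V j).map (φ j)) + finrank k (stepV φ V (j + 1)) := by
  have hfd : FiniteDimensional k (stepV φ V j) :=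
    Submodule.finiteDimensional_of_le (inf_le_left : stepV φ V j ≤ V)
  have h1 := LinearMap.finrank_range_add_finrank_ker ((φ j).domRestrict (stepV φ V j))
  rw [LinearMap.range_domRestrict] at h1
  rw [← h1, stepV_succ]
  congr 1
  have h2 : (LinearMap.ker ((φ j).domRestrict (stepV φ V j))).map (stepV φ V j).subtype =
      stepV φ V j ⊓ LinearMap.ker (φ j) := by
    ext g
    simp only [Submodule.mem_map, LinearMap.mem_ker, LinearMap.domRestrict_apply,
      Submodule.mem_inf, Submodule.coe_subtype]
    constructor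
    · rintro ⟨x, hx, rfl⟩
      exact ⟨x.2, hx⟩
    · rintro ⟨h3, h4⟩
      exact ⟨⟨g, h3⟩, h4, rfl⟩
  rw [← h2]
  exact (Submodule.equivMapOfInjective _ (Submodule.subtype_injective _) _).finrank_eq

theorem finrank_le_sum (φ : ℕ → E →ₗ[k] E') (V : Submodule k E) [FiniteDimensional k V] (s : ℕ)
    (hs : ∀ g ∈ V, (∀ m < s, φ m g = 0) → g = 0) :
    finrank k V = ∑ j ∈ Finset.range s, finrank k ((stepV φ V j).map (φ j)) := by
  have h1 : ∀ j, finrank k (stepV φ V 0) =
      ∑ i ∈ Finset.range j, finrank k ((stepV φ V i).map (φ i)) + finrank k (stepV φ V j) := by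
    intro j
    induction j with
    | zero => simp
    | succ j ih => rw [ih, Finset.sum_range_succ, finrank_stepV φ V j, add_assoc]
  have h0 : stepV φ V 0 = V := by
    ext g
    rw [mem_stepV]
    simp
  have h2 : stepV φ V s = ⊥ := by
    rw [eq_bot_iff]
    intro g hg
    rw [mem_stepV] at hg
    exact hs g hg.1 hg.2
  have h3 := h1 s
  rw [h0, h2, finrank_bot, add_zero] at h3
  exact h3

end filtration

section forms

variable {k σ : Type*} [Field k]

/-- the forms of degree `j` divisible by `q` -/
def divForms (q : MvPolynomial σ k) (j : ℕ) : Submodule k (MvPolynomial σ k) where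
  carrier := {h | h ∈ homogeneousSubmodule σ k j ∧ q ∣ h}
  add_mem' := fun ha hb => ⟨Submodule.add_mem _ ha.1 hb.1, dvd_add ha.2 hb.2⟩
  zero_mem' := ⟨Submodule.zero_mem _, dvd_zero _⟩
  smul_mem' := fun c x hx => ⟨Submodule.smul_mem _ c hx.1, by
    rw [smul_eq_C_mul]
    exact hx.2.mul_left _⟩

/-- the cofactors -/
noncomputable def coForms (q : MvPolynomial σ k) (j : ℕ) : Submodule k (MvPolynomial σ k) :=
  (homogeneousSubmodule σ k j).comap (LinearMap.mulLeft k q)

theorem divForms_eq (q : MvPolynomial σ k) (j : ℕ) :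
    divForms q j = (coForms q j).map (LinearMap.mulLeft k q) := by
  ext h
  simp only [Submodule.mem_map, LinearMap.mulLeft_apply]
  constructor
  · rintro ⟨h1, ⟨c, rfl⟩⟩
    exact ⟨c, h1, rfl⟩
  · rintro ⟨c, hc, rfl⟩
    exact ⟨hc, dvd_mul_right _ _⟩

theorem totalDegree_of_coForms {q c : MvPolynomial σ k} (hq : q ≠ 0) {j : ℕ}
    (hc : c ∈ coForms q j) (h0 : c ≠ 0) : q.totalDegree + c.totalDegree = j := by
  have h1 : (q * c).IsHomogeneous j := (mem_homogeneousSubmodule j _).1 hc
  have h2 := h1.totalDegree (mul_ne_zero hq h0)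
  rwa [totalDegree_mul_of_isDomain hq h0] at h2

theorem homogeneousComponent_totalDegree_ne {c : MvPolynomial σ k} (h0 : c ≠ 0) :
    homogeneousComponent c.totalDegree c ≠ 0 := by
  intro h
  obtain ⟨d, hd, hd'⟩ := Finset.exists_mem_eq_sup c.support (support_nonempty.2 h0)
    (fun d => d.sum fun _ e => e)
  have h2 : d.degree = c.totalDegree := by
    rw [totalDegree, hd']
    rfl
  have h3 := congrArg (coeff d) h
  rw [coeff_homogeneousComponent, if_pos h2, coeff_zero] at h3
  exact (mem_support_iff.1 hd) h3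

theorem coForms_eq_bot {q : MvPolynomial σ k} (hq : q ≠ 0) {j : ℕ} (hj : j < q.totalDegree) :
    coForms q j = ⊥ := by
  rw [eq_bot_iff]
  intro c hc
  by_contra h0
  have := totalDegree_of_coForms hq hc h0
  omega

theorem finrank_divForms_le [Finite σ] {q : MvPolynomial σ k} (hq : q ≠ 0) (i : ℕ) :
    finrank k (divForms q (q.totalDegree + i)) ≤ finrank k (homogeneousSubmodule σ k i) := by
  have hfd : FiniteDimensional k (homogeneousSubmodule σ k i) :=
    Module.Finite.iff_fg.2 (homogeneousSubmodule_fg σ k i)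
  have hinj : Function.Injective (LinearMap.mulLeft k q) := mul_right_injective₀ hq
  rw [divForms_eq, ← (Submodule.equivMapOfInjective _ hinj _).finrank_eq]
  · have h1 : ∀ c ∈ coForms q (q.totalDegree + i),
        homogeneousComponent i c ∈ homogeneousSubmodule σ k i :=
      fun c _ => homogeneousComponent_mem i c
    let ψ : coForms q (q.totalDegree + i) →ₗ[k] homogeneousSubmodule σ k i :=
      (homogeneousComponent i).restrict h1
    refine LinearMap.finrank_le_finrank_of_injective (f := ψ) ?_
    rw [injective_iff_map_eq_zero]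
    rintro ⟨c, hc⟩ h2
    by_contra h3
    have h0 : c ≠ 0 := fun h => h3 (Subtype.ext h)
    have h4 := totalDegree_of_coForms hq hc h0
    have h5 : c.totalDegree = i := by omega
    have h6 : homogeneousComponent i c = 0 := congrArg Subtype.val h2
    rw [← h5] at h6
    exact homogeneousComponent_totalDegree_ne h0 h6

theorem finrank_divForms_zero {q : MvPolynomial σ k} (hq : q ≠ 0) {j : ℕ}
    (hj : j < q.totalDegree) : finrank k (divForms q j) = 0 := by
  rw [divForms_eq, coForms_eq_bot hq hj, Submodule.map_bot, finrank_bot]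

variable (k σ) in
/-- the number of monomials of degree `< s` -/
noncomputable def hilb (s : ℕ) : ℕ :=
  ∑ j ∈ Finset.range s, finrank k (homogeneousSubmodule σ k j)

theorem hilb_mono : Monotone (hilb k σ) := by
  intro s t hst
  exact Finset.sum_le_sum_of_subset (Finset.range_mono hst)

theorem sum_divForms_le [Finite σ] {q : MvPolynomial σ k} (hq : q ≠ 0) (s : ℕ) :
    ∑ j ∈ Finset.range s, finrank k (divForms q j) ≤ hilb k σ (s - q.totalDegree) := by
  rcases le_or_gt q.totalDegree s with h | h
  · obtain ⟨t, rfl⟩ := Nat.exists_eq_add_of_le h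
    rw [Finset.sum_range_add, Finset.sum_eq_zero, zero_add, Nat.add_sub_cancel_left]
    · exact Finset.sum_le_sum fun i _ => finrank_divForms_le hq i
    · intro j hj
      exact finrank_divForms_zero hq (Finset.mem_range.1 hj)
  · rw [Finset.sum_eq_zero]
    · exact Nat.zero_le _
    · intro j hj
      exact finrank_divForms_zero hq ((Finset.mem_range.1 hj).trans h)

/-- **the forms lemma** -/
theorem finrank_le_of_forms [Finite σ] {f : MvPolynomial σ k} (hf : f ≠ 0) {M ρ : ℕ} (hρ : 0 < ρ)
    (hM : M ≤ f.totalDegree) (s : ℕ) (V : Submodule k (MvPolynomial σ k))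
    (hV : ∀ g ∈ V, g.totalDegree < s)
    (h : ∀ g ∈ V, ∀ j, (∀ m < j, homogeneousComponent m g = 0) →
      f ∣ homogeneousComponent j g ^ ρ) :
    finrank k V ≤ hilb k σ (s - (M + ρ - 1) / ρ) := by
  obtain ⟨q, hq1, hq2, hq3⟩ := exists_root f hρ
  have hq0 : q ≠ 0 := fun h0 => hf (by
    rw [h0] at hq1
    exact zero_dvd_iff.1 hq1)
  have hdeg : (M + ρ - 1) / ρ ≤ q.totalDegree := by
    have h1 : f.totalDegree ≤ (q ^ ρ).totalDegree := by
      obtain ⟨c, hc⟩ := hq2
      have hc0 : c ≠ 0 := fun h0 => pow_ne_zero ρ hq0 (by rw [hc, h0, mul_zero])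
      rw [hc, totalDegree_mul_of_isDomain hf hc0]
      omega
    have h2 := totalDegree_pow q ρ
    refine Nat.lt_succ_iff.1 (Nat.div_lt_of_lt_mul ?_)
    have : ρ * (q.totalDegree + 1) = ρ * q.totalDegree + ρ := by ring
    simp only [Nat.succ_eq_add_one]
    omega
  have hs0 : 0 < s := (Nat.zero_le _).trans_lt (hV 0 V.zero_mem)
  have hfd : FiniteDimensional k V := by
    have h1 : V ≤ restrictTotalDegree σ k s := fun g hg => by
      rw [mem_restrictTotalDegree]
      exact (hV g hg).le
    exact Submodule.finiteDimensional_of_le h1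
  rw [finrank_le_sum (fun j => homogeneousComponent j) V s]
  · refine (Finset.sum_le_sum fun j _ => ?_).trans
      ((sum_divForms_le hq0 s).trans (hilb_mono (by omega)))
    have hfd' : FiniteDimensional k (divForms q j) := by
      have hfd2 : FiniteDimensional k (homogeneousSubmodule σ k j) :=
        Module.Finite.iff_fg.2 (homogeneousSubmodule_fg σ k j)
      exact Submodule.finiteDimensional_of_le (fun x hx => hx.1 :
        divForms q j ≤ homogeneousSubmodule σ k j)
    refine Submodule.finrank_mono ?_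
    rintro _ ⟨g, hg, rfl⟩
    rw [SetLike.mem_coe, mem_stepV] at hg
    exact ⟨homogeneousComponent_mem j g, hq3 _ (h g hg.1 j hg.2)⟩
  · intro g hg h0
    rw [← sum_homogeneousComponent g]
    refine Finset.sum_eq_zero fun i hi => h0 i ?_
    have := hV g hg
    have := Finset.mem_range.1 hi
    omega

theorem finrank_homog (D j : ℕ) :
    finrank k (homogeneousSubmodule (Fin D) k j) = D.multichoose j := by
  classical
  have h1 : {d : Fin D →₀ ℕ | d.degree = j} =
      ((Finset.univ : Finset (Fin D)).finsuppAntidiag j : Set (Fin D →₀ ℕ)) := by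
    ext d
    simp only [Set.mem_ofPred_eq, Finset.mem_coe, Finset.mem_finsuppAntidiag,
      Finset.subset_univ, and_true]
    rw [Finsupp.degree_eq_sum]
  rw [homogeneousSubmodule_eq_finsupp_supported, h1,
    (AddMonoidAlgebra.supportedEquivFinsupp _).finrank_eq, finrank_finsupp_self]
  refine (Fintype.card_coe _).trans ?_
  rw [Finset.card_finsuppAntidiag_nat_eq_multichoose, Finset.card_univ, Fintype.card_fin]

theorem hilb_eq (D t : ℕ) : hilb k (Fin D) t = if t = 0 then 0 else (t - 1 + D).choose D := by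
  unfold hilb
  simp only [finrank_homog]
  cases t with
  | zero => simp
  | succ t =>
    rw [if_neg (by omega), Nat.add_sub_cancel]
    induction t with
    | zero => simp
    | succ t ih =>
      rw [Finset.sum_range_succ, ih]
      cases D with
      | zero => simp
      | succ D =>
        rw [Nat.multichoose_eq]
        have h1 : D + 1 + (t + 1) - 1 = t + D + 1 := by omega
        have h2 : t + (D + 1) = t + D + 1 := by ring
        have h3 : t + 1 + (D + 1) = t + D + 1 + 1 := by ring
        rw [h1, h2, h3, Nat.choose_succ_succ (t + D + 1) D, add_comm]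
        congr 1
        rw [← Nat.choose_symm (show t + 1 ≤ t + D + 1 by omega)]
        congr 1
        omega

end forms

end Pool.Agent.ALLForms
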