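import Pool.Agent.Lib.ALL_h96.OrdField
import Pool.Agent.Lib.TAO.Basic

/-!
# A valuation ring is given by a valuation with values in an ordered field (helper96, project ALL)
-/

set_option autoImplicit false

namespace Pool.Agent.ALLOrd

open Pool.Agent.TAO

universe u

open Classical in
/-- the value of `x` in the value group of `V`, written additively -/
noncomputable def addVal {K : Type u} [Field K] (V : ValuationSubring K) (x : K) :
    Additive V.ValueGroupˣ :=
  if h : x ≠ 0 then Additive.ofMul (Units.mk0 (V.valuation x) ((V.valuation.ne_zero_iff).2 h))⁻¹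
  else 0

theorem addVal_mul {K : Type u} [Field K] (V : ValuationSubring K) {x y : K} (hx : x ≠ 0)
    (hy : y ≠ 0) : addVal V (x * y) = addVal V x + addVal V y := by
  unfold addVal
  rw [dif_pos hx, dif_pos hy, dif_pos (mul_ne_zero hx hy), ← ofMul_mul, ← mul_inv]
  congr 2
  ext
  simp

theorem addVal_le {K : Type u} [Field K] (V : ValuationSubring K) {x y : K} (hx : x ≠ 0)
    (hy : y ≠ 0) : addVal V x ≤ addVal V y ↔ V.valuation y ≤ V.valuation x := by
  unfold addVal
  rw [dif_pos hx, dif_pos hy, Additive.ofMul_le, inv_le_inv_iff, ← Units.val_le_val]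
  simp

/-- **a valuation ring of `K` comes from a valuation with values in a linearly ordered field** -/
theorem exists_oval (K : Type u) [Field K] (V : ValuationSubring K) :
    ∃ (kk : Type u) (_ : Field kk) (_ : LinearOrder kk) (_ : IsStrictOrderedRing kk)
      (v : OVal kk K), (∀ x : K, x ≠ 0 → (x ∈ V ↔ 0 ≤ v x)) ∧
        ∀ x y : K, x ≠ 0 → y ≠ 0 → (v x ≤ v y ↔ y / x ∈ V) := by
  obtain ⟨kk, hf, hl, ho, φ, hφ⟩ := exists_field_embedding (Additive V.ValueGroupˣ)
  refine ⟨kk, hf, hl, ho, ⟨fun x => φ (addVal V x), fun x y hx hy => ?_, fun x y hx hy hxy => ?_⟩,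
    fun x hx => ?_, fun x y hx hy => ?_⟩
  · rw [addVal_mul V hx hy, map_add]
  · rw [min_le_iff, hφ.le_iff_le, hφ.le_iff_le, addVal_le V hx hxy, addVal_le V hy hxy]
    exact le_max_iff.1 (V.valuation.map_add x y)
  · have h1 : addVal V (1 : K) = 0 := by
      have := addVal_mul V (one_ne_zero (α := K)) (one_ne_zero (α := K))
      rw [mul_one] at this
      exact left_eq_add.1 this
    have h2 : φ (addVal V (1 : K)) = 0 := by rw [h1, map_zero]
    show x ∈ V ↔ 0 ≤ φ (addVal V x)
    rw [← h2, hφ.le_iff_le, addVal_le V one_ne_zero hx, map_one, V.valuation_le_one_iff]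
  · show φ (addVal V x) ≤ φ (addVal V y) ↔ y / x ∈ V
    rw [hφ.le_iff_le, addVal_le V hx hy, ← V.valuation_le_one_iff, map_div₀,
      div_le_one₀ (zero_lt_iff.2 ((V.valuation.ne_zero_iff).2 hx))]

end Pool.Agent.ALLOrd
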