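import Mathlib

/-!
# A linearly ordered abelian group embeds in a linearly ordered field (helper96, project ALL, 7E)
-/

set_option autoImplicit false

namespace Pool.Agent.ALLOrd

open HahnSeries

universe u

/-- the order embedding of a linear order in a linearly ordered group -/
noncomputable def emb (Ω : Type u) [LinearOrder Ω] : Ω ↪o Lex (Ω →₀ ℤ) :=
  OrderEmbedding.ofStrictMono (fun ω => toLex (Finsupp.single ω (-1))) (by
    intro a b hab
    refine ⟨a, fun j hj => ?_, ?_⟩
    · simp only [ofLex_toLex]
      rw [Finsupp.single_eq_of_ne (by exact ne_of_lt hj), Finsupp.single_eq_of_ne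
        (by exact ne_of_lt (hj.trans hab))]
    · simp only [ofLex_toLex]
      rw [Finsupp.single_eq_same, Finsupp.single_eq_of_ne (ne_of_lt hab)]
      norm_num)

/-- **every linearly ordered abelian group embeds in a linearly ordered field** -/
theorem exists_field_embedding (G : Type u) [AddCommGroup G] [LinearOrder G]
    [IsOrderedAddMonoid G] : ∃ (kk : Type u) (_ : Field kk) (_ : LinearOrder kk)
      (_ : IsStrictOrderedRing kk) (φ : G →+ kk), StrictMono φ := by
  obtain ⟨f, hf, -⟩ := hahnEmbedding_isOrderedAddMonoid G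
  let Ω := FiniteArchimedeanClass G
  let Γ := Lex (Ω →₀ ℤ)
  let g : Lex (HahnSeries Ω ℝ) →+o Lex (HahnSeries Γ ℝ) := embDomainOrderAddMonoidHom (emb Ω)
  refine ⟨Lex (HahnSeries Γ ℝ), inferInstance, inferInstance, inferInstance,
    g.toAddMonoidHom.comp f.toAddMonoidHom, ?_⟩
  refine Monotone.strictMono_of_injective (fun a b hab => ?_) (fun a b hab => ?_)
  · exact g.monotone' (f.monotone' hab)
  · exact hf (embDomainOrderAddMonoidHom_injective (emb Ω) hab)

end Pool.Agent.ALLOrd
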